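import Mathlib
import Pool.Agent.Helper15.LR.Defs
import Pool.Agent.Helper15.LR.Defs3

set_option autoImplicit false

/-!
`ch' ≤ Δ + C (log n)^5` for all graphs: definitions and module statements
(see `/team-store/lp_blueprint.md`).
-/

open Finset
open scoped Classical
open Pool.Agent.Helper15.LR

namespace Pool.Agent.Helper15.LP

noncomputable section

/-- neighbours -/
def Nb {V : Type} [Fintype V] (G : SimpleGraph V) (v : V) : Finset V :=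
  univ.filter (fun u => G.Adj v u)

/-- adjacency operator -/
def Av {V : Type} [Fintype V] (G : SimpleGraph V) (f : V → ℝ) (v : V) : ℝ := ∑ u ∈ Nb G v, f u

/-- squared norm -/
def S2 {V : Type} [Fintype V] (f : V → ℝ) : ℝ := ∑ v, f v ^ 2

/-- `D`-regular -/
def Reg {V : Type} [Fintype V] (G : SimpleGraph V) (D : ℕ) : Prop := ∀ v, (Nb G v).card = D

/-- `‖f - P f‖² ` where `P = A / D` -/
def Sm {V : Type} [Fintype V] (G : SimpleGraph V) (D : ℕ) (f : V → ℝ) : ℝ :=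
  S2 (fun v => f v - Av G f v / D)

/-- uniform weights on signs -/
def un {ι : Type} : ι → Bool → ℝ := fun _ _ => 1 / 2

/-! ### Part A: probability tools -/

/-- RADE: tail bound for linear forms in random signs. -/
def Rade_stmt : Prop :=
  ∀ (ι : Type) [Fintype ι] (a : ι → ℝ) (A s : ℝ), 0 < A → ∑ i, a i ^ 2 ≤ A → 0 ≤ s →
    PP (un : ι → Bool → ℝ) {x | s < |∑ i, a i * sgn (x i)|} ≤ 2 * Real.exp (-(s ^ 2 / (2 * A)))

/-- PPT1: `PP` with uniform signs is counting. -/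
def PPCount_stmt : Prop :=
  ∀ (ι : Type) [Fintype ι] (E : Set (ι → Bool)),
    PP (un : ι → Bool → ℝ) E = ((univ.filter (fun x => x ∈ E)).card : ℝ) / 2 ^ Fintype.card ι

/-- PPT2: conditioning on all coordinates but one. -/
def PPCond1_stmt : Prop :=
  ∀ (ι κ : Type) [Fintype ι] [DecidableEq ι] [Fintype κ] (w : κ → ℝ) (E : Set (ι → κ)) (k : ι)
    (δ : ℝ), (∀ p, 0 ≤ w p) → ∑ p, w p = 1 →
    (∀ x : ι → κ, ∑ p, (if Function.update x k p ∈ E then w p else 0) ≤ δ) →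
    PP (fun _ => w) E ≤ δ

/-- PPT3: events depending on two coordinates. -/
def PPCond2_stmt : Prop :=
  ∀ (ι κ : Type) [Fintype ι] [Fintype κ] (w : κ → ℝ) (Q : κ → κ → Prop) (i j : ι), i ≠ j →
    ∑ p, w p = 1 →
    PP (fun (_ : ι) => w) {x | Q (x i) (x j)} = ∑ p, ∑ q, (if Q p q then w p * w q else 0)

/-- PPT4: union bound. -/
def PPUnion_stmt : Prop :=
  ∀ (ι κ J : Type) [Fintype ι] [Fintype κ] [Fintype J] (w : ι → κ → ℝ) (E : Set (ι → κ))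
    (B : J → Set (ι → κ)), (∀ i k, 0 ≤ w i k) → (∀ x ∈ E, ∃ j, x ∈ B j) →
    PP w E ≤ ∑ j, PP w (B j)

/-- TGM: trace inequality. -/
def TraceGM_stmt : Prop :=
  ∀ (V : Type) [Fintype V] [DecidableEq V] (H W Y : Matrix V V ℝ) (r q : ℕ),
    H.IsSymm → W.IsSymm → Y.IsSymm → q ≤ 2 * r →
    (H * W ^ q * H * Y ^ (2 * r - q)).trace + (H * W ^ (2 * r - q) * H * Y ^ q).trace ≤
      (H * H * W ^ (2 * r)).trace + (H * H * Y ^ (2 * r)).trace

/-- KHIN: noncommutative Khintchine inequality (trace moments). -/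
def Khintchine_stmt : Prop :=
  ∀ (V ι : Type) [Fintype V] [DecidableEq V] [Fintype ι] (H : ι → Matrix V V ℝ) (s : ℝ) (p : ℕ),
    (∀ i, (H i).IsSymm) → 0 ≤ s →
    (∀ x : V → ℝ, ∑ i, ∑ v, ((H i).mulVec x v) ^ 2 ≤ s * ∑ v, x v ^ 2) →
    ∑ ε : ι → Bool, ((∑ i, sgn (ε i) • H i) ^ (2 * p)).trace ≤
      2 ^ Fintype.card ι * (Fintype.card V * ((2 * p) ^ p * s ^ p))

/-- OPN: operator norm of `A diag(ε) A`. -/
def OpNorm_stmt : Prop :=
  ∀ (V : Type) [Fintype V] (G : SimpleGraph V) (D m : ℕ), Reg G D → 1 ≤ D → 1 ≤ m →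
    PP (un : V → Bool → ℝ) {x | ∃ f h : V → ℝ, S2 f ≤ 1 ∧ S2 h ≤ 1 ∧
        7 * Real.sqrt m * (D * Real.sqrt D) < |∑ v, sgn (x v) * Av G f v * Av G h v|} ≤
      Fintype.card V * Real.exp (-(3 * m))

/-- VBN: Bernstein inequality for sums of independent vectors (random subset of density `ρ`). -/
def VecBern_stmt : Prop :=
  ∀ (B V : Type) [Fintype B] [Fintype V] (c : B → V → ℝ) (ρ M S : ℝ) (p : ℕ),
    1 ≤ p → 0 ≤ ρ → ρ ≤ 1 → 0 < M → (∀ b, ∑ v, c b v ^ 2 ≤ M) → (∑ b, ∑ v, c b v ^ 2 ≤ S) →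
    PP (fun (_ : B) (t : Bool) => if t = true then ρ else 1 - ρ)
        {x | 8 * (9 * p ^ 2 * M + 11 * p * ρ * S) <
          ∑ v, (∑ b, ((if x b = true then 1 else 0) - ρ) * c b v) ^ 2} ≤ Real.exp (-(2 * p))

/-- CHAOS: tail bound for quadratic forms in random signs. -/
def Chaos_stmt : Prop :=
  ∀ (V : Type) [Fintype V] (C : V → V → ℝ) (F : ℝ) (p : ℕ), 1 ≤ p → 0 ≤ F → (∀ v, C v v = 0) →
    (∑ v, ∑ w, C v w ^ 2 ≤ F ^ 2) →
    PP (un : V → Bool → ℝ) {x | 10 * p * F < |∑ v, ∑ w, C v w * sgn (x v) * sgn (x w)|} ≤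
      Real.exp (-(2 * p))

/-- BAL: self-balancing walk (with prescribed means `μ`). -/
def Balance_stmt : Prop :=
  ∀ (ι E : Type) [Fintype ι] [Fintype E] (v : ι → E → ℝ) (μ : ι → ℝ) (c : ℝ), 1 ≤ c →
    (∀ i, ∑ x, v i x ^ 2 ≤ 1) → (∀ i, |μ i| ≤ 1 / 2) →
    ∃ W : (ι → Bool) → ℝ, (∀ ε, 0 ≤ W ε) ∧ ∑ ε, W ε = 1 ∧
      (∀ (θ : E → ℝ) (T t : ℝ), ∑ x, θ x ^ 2 ≤ T → 0 < T → 0 ≤ t →
        ∑ ε, (if t < |∑ i, (sgn (ε i) - μ i) * ∑ x, v i x * θ x| then W ε else 0) ≤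
          2 * Real.exp (-(t ^ 2 / (2 * c * T))) + 2 * Fintype.card ι * Real.exp (-(c / 32))) ∧
      (∀ i b, ∑ ε, (if ε i = b then W ε else 0) ≤ 7 / 8) ∧
      (∀ i j, i ≠ j → ∑ ε, (if ε i = ε j then W ε else 0) ≤ 7 / 8)

/-- FOUR: `1/(1 + number of minus signs)` is a convex combination of characters. -/
def Fourier_stmt : Prop :=
  ∀ (ι : Type) [Fintype ι], ∃ c : Finset ι → ℝ, (∀ S, 0 ≤ c S) ∧ ∑ S, c S = 1 ∧
    ∀ r : ι → Bool, 1 / (1 + ((univ.filter (fun i => r i = false)).card : ℝ)) =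
      ∑ S, c S * ∏ i ∈ S, sgn (r i)

/-! ### Part B: potentials -/

/-- the vertices on which the product of the two sign vectors is `s` -/
def Ve {V : Type} (a b : V → Bool) (s : Bool) (v : V) : Prop := (a v = b v ↔ s = true)

/-- Laplacian of the bipartite graph between the two types in `Ve a b s` -/
def Lap {V : Type} [Fintype V] (G : SimpleGraph V) (a b : V → Bool) (s : Bool) (z : V → ℝ)
    (u : V) : ℝ :=
  ∑ v ∈ (Nb G u).filter (fun v => Ve a b s v ∧ b v ≠ b u), (z u - z v)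

/-- `z` solves `(Lap + K) z = θ` on `Ve a b s` and vanishes outside -/
def IsPot {V : Type} [Fintype V] (G : SimpleGraph V) (a b : V → Bool) (s : Bool) (K : ℝ)
    (θ z : V → ℝ) : Prop :=
  (∀ u, ¬ Ve a b s u → z u = 0) ∧ ∀ u, Ve a b s u → Lap G a b s z u + K * z u = θ u

/-- the unit vector at `u` -/
def dl {V : Type} (u : V) : V → ℝ := fun v => if v = u then 1 else 0

/-- LAP: basic facts. -/
def Lap_stmt : Prop :=
  ∀ (V : Type) [Fintype V] (G : SimpleGraph V) (a b : V → Bool) (s : Bool) (K : ℝ), 0 < K →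
    (∀ θ : V → ℝ, ∃ z, IsPot G a b s K θ z) ∧
    (∀ θ z z' : V → ℝ, IsPot G a b s K θ z → IsPot G a b s K θ z' → z = z') ∧
    (∀ θ z : V → ℝ, IsPot G a b s K θ z → (∀ u, |θ u| ≤ 1) → ∀ u, |z u| ≤ 1 / K) ∧
    (∀ θ θ' z z' : V → ℝ, IsPot G a b s K θ z → IsPot G a b s K θ' z' →
      ∑ u, (if Ve a b s u then θ u * z' u else 0) = ∑ u, (if Ve a b s u then θ' u * z u else 0)) ∧
    (∀ θ z : V → ℝ, IsPot G a b s K θ z →
      K ^ 2 * S2 z + ∑ u, (if Ve a b s u then Lap G a b s z u ^ 2 else 0) ≤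
        ∑ u, (if Ve a b s u then θ u ^ 2 else 0))

/-- good pair of sign vectors -/
def GoodPair {V : Type} [Fintype V] (G : SimpleGraph V) (D m : ℕ) (a b : V → Bool) : Prop :=
  (∀ v (a0 b0 : Bool), |(((Nb G v).filter (fun w => a w = a0 ∧ b w = b0)).card : ℝ) - D / 4| ≤
      3 / 2 * Real.sqrt (m * D)) ∧
  (∀ (f h : V → ℝ) (a0 b0 : Bool), S2 f ≤ 1 → S2 h ≤ 1 →
    |∑ v, ((if a v = a0 ∧ b v = b0 then 1 else 0) - 1 / 4) * Av G f v * Av G h v| ≤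
      6 * Real.sqrt m * (D * Real.sqrt D))

/-- GP: most pairs are good. -/
def GoodPair_stmt : Prop :=
  ∀ (V : Type) [Fintype V] (G : SimpleGraph V) (D m : ℕ), Reg G D → 1 ≤ D → 60 ≤ m →
    (Fintype.card V : ℝ) ≤ Real.exp (m / 100) →
    ((univ.filter (fun p : (V → Bool) × (V → Bool) => ¬ GoodPair G D m p.1 p.2)).card : ℝ) ≤
      4 ^ Fintype.card V * Real.exp (-m)

/-- GREEN: Green's function of a good pair (`K = √D`). -/
def Green_stmt : Prop :=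
  ∀ (V : Type) [Fintype V] (G : SimpleGraph V) (D m : ℕ) (a b : V → Bool) (s : Bool) (u : V)
    (g : V → ℝ), Reg G D → 1 ≤ m → 144 * m ≤ D → GoodPair G D m a b → Ve a b s u →
    IsPot G a b s (Real.sqrt D) (dl u) g →
    ∑ v, |g v| ≤ 1 / Real.sqrt D ∧ S2 g ≤ 144 / (D : ℝ) ^ 2 ∧
      (∀ v, |Av G g v| ≤ 11 / Real.sqrt D) ∧ S2 (Av G g) ≤ 144 ∧
      Sm G D (Av G g) ≤ 22500 * m / D

/-! ### Part C: the correctors -/

/-- number of neighbours in `R` -/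
def NR {V : Type} [Fintype V] (G : SimpleGraph V) (R : Finset V) (v : V) : ℝ :=
  (((Nb G v).filter (fun b => b ∈ R)).card : ℝ)

/-- average over the neighbours in `R` -/
def PR {V : Type} [Fintype V] (G : SimpleGraph V) (R : Finset V) (y : V → ℝ) (v : V) : ℝ :=
  (∑ b ∈ (Nb G v).filter (fun b => b ∈ R), y b) / NR G R v

/-- `R` has about `10 √(m D)` elements in every neighbourhood -/
def GoodR {V : Type} [Fintype V] (G : SimpleGraph V) (D m : ℕ) (R : Finset V) : Prop :=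
  ∀ v, 5 * Real.sqrt (m * D) ≤ NR G R v ∧ NR G R v ≤ 20 * Real.sqrt (m * D)

/-- the pair `(a, b)` is compatible with `R` -/
def GoodRP {V : Type} [Fintype V] (G : SimpleGraph V) (D m : ℕ) (R : Finset V)
    (a b : V → Bool) : Prop :=
  ∀ (s : Bool) (u : V) (g : V → ℝ), Ve a b s u → IsPot G a b s (Real.sqrt D) (dl u) g →
    S2 (fun v => Av G g v - PR G R (Av G g) v) ≤ 300000 * m / D

/-- RSET: existence of the corrector set. -/
def RSet_stmt : Prop :=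
  ∀ (V : Type) [Fintype V] (G : SimpleGraph V) (D m : ℕ), Reg G D → 60 ≤ m →
    (Fintype.card V : ℝ) ≤ Real.exp (m / 100) → 10 ^ 4 * m ≤ D →
    ∃ R : Finset V, GoodR G D m R ∧
      ((univ.filter (fun p : (V → Bool) × (V → Bool) => GoodPair G D m p.1 p.2 ∧
        ¬ GoodRP G D m R p.1 p.2)).card : ℝ) ≤ 4 ^ Fintype.card V * Real.exp (-m)

/-- the mean of the corrector `b`, given the virtual signs `x` -/
def mu {V : Type} [Fintype V] (G : SimpleGraph V) (R : Finset V) (x : V → Bool) (b : V) : ℝ :=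
  -∑ v ∈ (Nb G b).filter (fun v => v ∉ R), sgn (x v) / NR G R v

/-- distribution of one level: `w x y` is the probability of virtual signs `x`, true signs `y` -/
def LevelW {V : Type} [Fintype V] (G : SimpleGraph V) (D m : ℕ) (R : Finset V)
    (w : (V → Bool) × (V → Bool) → ℝ) : Prop :=
  (∀ p, 0 ≤ w p) ∧ (∀ x, ∑ y, w (x, y) = (1 / 2) ^ Fintype.card V) ∧
  (∀ x y v, w (x, y) ≠ 0 → v ∉ R → y v = x v) ∧
  (∀ x, (∀ b ∈ R, |mu G R x b| ≤ 1 / 2) → ∀ (f : V → ℝ) (T t : ℝ),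
    2 * (Sm G D f + S2 f / D) ≤ T → 0 < T → 0 ≤ t →
    ∑ y, (if t < |∑ b ∈ R, (sgn (y b) - mu G R x b) * f b| then w (x, y) else 0) ≤
      (1 / 2) ^ Fintype.card V * (2 * Real.exp (-(t ^ 2 / (256 * m * T))) +
        2 * Fintype.card V * Real.exp (-(4 * m)))) ∧
  (∀ u v, u ≠ v → ∑ x, ∑ y, (if y u = y v then w (x, y) else 0) ≤ 7 / 8)

/-- LEVEL: existence of the distribution of one level. -/
def Level_stmt : Prop :=
  ∀ (V : Type) [Fintype V] (G : SimpleGraph V) (D m : ℕ) (R : Finset V), Reg G D → 1 ≤ D →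
    1 ≤ m → ∃ w : (V → Bool) × (V → Bool) → ℝ, LevelW G D m R w

/-- PARTS: nontrivial characters. -/
def PartS_stmt : Prop :=
  ∀ (V : Type) [Fintype V] (G : SimpleGraph V) (D m : ℕ) (R : Finset V)
    (w : (V → Bool) × (V → Bool) → ℝ) (κ g : V → ℝ), Reg G D → 60 ≤ m →
    (Fintype.card V : ℝ) ≤ Real.exp (m / 100) → 10 ^ 4 * m ^ 3 ≤ D → GoodR G D m R →
    LevelW G D m R w → (∀ v, |κ v| ≤ 1) → ∑ v, |g v| ≤ 1 / Real.sqrt D →
    S2 g ≤ 144 / (D : ℝ) ^ 2 →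
    ∑ p, (if 10 ^ 4 * m / Real.sqrt D <
        |∑ v, κ v * sgn (p.2 v) * Av G (fun u => g u * sgn (p.1 u)) v| then w p else 0) ≤
      Real.exp (-(3 / 2 * m))

/-- PARTM: the trivial character. -/
def PartM_stmt : Prop :=
  ∀ (V : Type) [Fintype V] (G : SimpleGraph V) (D m : ℕ) (R : Finset V)
    (w : (V → Bool) × (V → Bool) → ℝ), Reg G D → 60 ≤ m →
    (Fintype.card V : ℝ) ≤ Real.exp (m / 100) → 10 ^ 4 * m ≤ D → GoodR G D m R →
    ((univ.filter (fun p : (V → Bool) × (V → Bool) => GoodPair G D m p.1 p.2 ∧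
        ¬ GoodRP G D m R p.1 p.2)).card : ℝ) ≤ 4 ^ Fintype.card V * Real.exp (-m) →
    LevelW G D m R w →
    ∑ p, ∑ q, (if (∃ (s : Bool) (u : V) (g : V → ℝ), Ve p.1 q.1 s u ∧
        IsPot G p.1 q.1 s (Real.sqrt D) (dl u) g ∧
        6000 * (m * Real.sqrt m) / Real.sqrt D <
          |∑ v, (sgn (q.2 v) - sgn s * sgn (p.2 v)) / 2 * Av G g v|) then w p * w q else 0) ≤
      3 * Real.exp (-m)

/-- the signed excess of the pair of levels `i`, `j` at the vertex `u` -/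
def Th {V : Type} [Fintype V] (G : SimpleGraph V) {m : ℕ} (i j : Fin m) (s : Bool)
    (x : Fin m → (V → Bool) × (V → Bool)) (u : V) : ℝ :=
  ∑ v ∈ Nb G u, (sgn ((x j).2 v) - sgn s * sgn ((x i).2 v)) / 2 *
    (1 / (1 + ((univ.filter (fun k : Fin m => k ≠ i ∧ k ≠ j ∧ (x k).1 u ≠ (x k).2 v)).card : ℝ)))

/-- bound for the potentials -/
def BZ (D m : ℕ) : ℝ := 10 ^ 4 * (m * Real.sqrt m) / Real.sqrt D

/-- PARTZ: the potentials are small. -/
def PartZ_stmt : Prop :=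
  ∀ (V : Type) [Fintype V] (G : SimpleGraph V) (D m : ℕ) (R : Finset V)
    (w : (V → Bool) × (V → Bool) → ℝ) (i j : Fin m), Reg G D → 60 ≤ m →
    (Fintype.card V : ℝ) ≤ Real.exp (m / 100) → 10 ^ 4 * m ^ 3 ≤ D → GoodR G D m R →
    ((univ.filter (fun p : (V → Bool) × (V → Bool) => GoodPair G D m p.1 p.2 ∧
        ¬ GoodRP G D m R p.1 p.2)).card : ℝ) ≤ 4 ^ Fintype.card V * Real.exp (-m) →
    LevelW G D m R w → i ≠ j →
    PP (fun (_ : Fin m) (p : (V → Bool) × (V → Bool)) => w p)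
      {x | ∃ (s : Bool) (u : V) (z : V → ℝ), Ve (x i).1 (x j).1 s u ∧
        IsPot G (x i).1 (x j).1 s (Real.sqrt D) (Th G i j s x) z ∧ BZ D m < |z u|} ≤
      5 * Real.exp (-(m / 2))

/-- true signs -/
def tr {V : Type} {m : ℕ} (x : Fin m → (V → Bool) × (V → Bool)) : V → Fin m → Bool :=
  fun v k => (x k).2 v

/-- ROWS: sums over neighbourhoods of mean zero functions of the crossing pattern. -/
def Rows_stmt : Prop :=
  ∀ (V : Type) [Fintype V] (G : SimpleGraph V) (D m : ℕ) (R : Finset V)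
    (w : (V → Bool) × (V → Bool) → ℝ) (u : V) (r : V → Finset (Fin m) → ℝ), Reg G D → 60 ≤ m →
    1 ≤ D → GoodR G D m R → LevelW G D m R w → (∀ v I, |r v I| ≤ 1) → (∀ v, ∑ I, r v I = 0) →
    PP (fun (_ : Fin m) (p : (V → Bool) × (V → Bool)) => w p)
      {x | 25 * Real.sqrt (m * D) < |∑ v ∈ Nb G u, r v (pat (tr x) u v)|} ≤
      Real.exp (-(2 * m))

/-- NONE: every edge is crossed by some level. -/
def NonE_stmt : Prop :=
  ∀ (V : Type) [Fintype V] (G : SimpleGraph V) (D m : ℕ) (R : Finset V)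
    (w : (V → Bool) × (V → Bool) → ℝ), 60 ≤ m → (Fintype.card V : ℝ) ≤ Real.exp (m / 100) →
    LevelW G D m R w →
    PP (fun (_ : Fin m) (p : (V → Bool) × (V → Bool)) => w p)
      {x | ∃ u v, u ≠ v ∧ ¬ (pat (tr x) u v).Nonempty} ≤ Real.exp (-(m / 10))

/-- SIGNS: the signs and the exchange flows. -/
def Signs_stmt : Prop :=
  ∀ (V : Type) [Fintype V] (G : SimpleGraph V) (D m : ℕ) (r : Fin m → V → V → Finset (Fin m) → ℝ),
    Reg G D → 60 ≤ m → (Fintype.card V : ℝ) ≤ Real.exp (m / 100) → 10 ^ 4 * m ^ 3 ≤ D →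
    (∀ i u v I, |r i u v I| ≤ 1) → (∀ i u v, ∑ I, r i u v I = 0) →
    ∃ (σ : V → Fin m → Bool) (β : Fin m → Fin m → V → V → ℝ),
      (∀ u v, G.Adj u v → (pat σ u v).Nonempty) ∧
      (∀ i u, |∑ v ∈ Nb G u, r i u v (pat σ u v)| ≤ 25 * Real.sqrt (m * D)) ∧
      (∀ i j u v, β i j u v = β i j v u) ∧ (∀ i j u v, β j i u v = -β i j u v) ∧
      (∀ i j u v, β i j u v ≠ 0 → G.Adj u v ∧ i ∈ pat σ u v ∧ j ∈ pat σ u v) ∧
      (∀ i j u v, |β i j u v| ≤ 10 ^ 5 * (m * Real.sqrt m) / Real.sqrt D) ∧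
      (∀ i j u, ∑ v, |β i j u v| ≤ 10 ^ 5 * (m * Real.sqrt m) * Real.sqrt D) ∧
      (∀ i j u, |∑ v, β i j u v - ∑ v ∈ Nb G u, ((if i ∈ pat σ u v then (1 : ℝ) else 0) -
          (if j ∈ pat σ u v then 1 else 0)) / ((pat σ u v).card : ℝ)| ≤ 10 ^ 6 * m ^ 2)

/-! ### Part D: fractional weights and colouring -/

/-- WEIGHTS: fractional weights with all loads at most one. -/
def Weights_stmt : Prop :=
  ∀ (V : Type) [Fintype V] (G : SimpleGraph V) (D m : ℕ) (l : Fin m → Sym2 V → ℕ) (L : ℕ),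
    Reg G D → 60 ≤ m → (Fintype.card V : ℝ) ≤ Real.exp (m / 100) → 10 ^ 12 * m ^ 5 ≤ D →
    D + 10 ^ 6 * m ^ 4 ≤ L → L ≤ 2 * D →
    (∀ e ∈ G.edgeSet, ∑ i, l i e = L) →
    (∀ i, ∀ e ∈ G.edgeSet, |(m : ℝ) * l i e / L - 1| ≤ 2 * m * Real.sqrt (m / D)) →
    ∃ (σ : V → Fin m → Bool) (w : Fin m → Sym2 V → ℝ),
      (∀ i e, 0 ≤ w i e) ∧
      (∀ i u v, w i s(u, v) ≠ 0 → σ u i ≠ σ v i) ∧
      (∀ e ∈ G.edgeSet, ∑ i, (l i e : ℝ) * w i e = 1) ∧
      (∀ i u, ∑ v ∈ Nb G u, w i s(u, v) ≤ 1)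

/-- ROUNDQ: rounding, every pair (item, option) in at most `q` constraints. -/
def RoundQ_stmt : Prop :=
  ∀ (ι O C : Type) [Fintype ι] [Fintype O] [Fintype C] (R : ι → O → C → Prop) (w : ι → O → ℝ)
    (q : ℕ), 1 ≤ q → (∀ i o, 0 ≤ w i o) → (∀ i, ∑ o, w i o = 1) →
    (∀ i o, (univ.filter (fun c => R i o c)).card ≤ q) →
    ∃ φ : ι → O, (∀ i, 0 < w i (φ i)) ∧
      ∀ c, |((univ.filter (fun i => R i (φ i) c)).card : ℝ) -
        ∑ i, ∑ o, (if R i o c then w i o else 0)| ≤ 2 * q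

/-- FRAC: fractional weights with loads at most one give a list colouring. -/
def Frac_stmt : Prop :=
  ∀ (V : Type) [Fintype V] (F : Set (Sym2 V)) (m κ : ℕ) (σ : V → Fin m → Bool)
    (L : Sym2 V → Finset ℕ) (g : ℕ → Fin m) (l : Fin m → Sym2 V → ℕ) (w : Fin m → Sym2 V → ℝ),
    (∀ v, s(v, v) ∉ F) → (∀ i e, 0 ≤ w i e) → (∀ i u v, w i s(u, v) ≠ 0 → σ u i ≠ σ v i) →
    (∀ e ∈ F, ∑ i, (l i e : ℝ) * w i e = 1) → (∀ i u, ∑ v ∈ nb F u, w i s(u, v) ≤ 1) →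
    (∀ i e, l i e ≤ 2 ^ κ) →
    (∀ i, ∀ e ∈ F, l i e + 8 * (κ + 1) ^ 2 ≤ ((L e).filter (fun c => g c = i)).card) →
    LC F L

/-- SPLIT: random partition of the palette. -/
def Split_stmt : Prop :=
  ∀ (ι : Type) [Fintype ι] (m L0 : ℕ) (L : ι → Finset ℕ) (s : ℝ), 1 ≤ m → 1 ≤ L0 → 0 ≤ s →
    (∀ e, (L e).card = L0) →
    (Fintype.card ι : ℝ) * m * (2 * Real.exp (-(s ^ 2 / (2 * L0)))) < 1 →
    ∃ g : ℕ → Fin m, ∀ e i,
      |(((L e).filter (fun c => g c = i)).card : ℝ) - L0 / m| ≤ s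

/-- MREG: regular graphs. -/
def MainReg_stmt : Prop :=
  ∀ (V : Type) [Fintype V] (G : SimpleGraph V) (D m : ℕ) (L : Sym2 V → Finset ℕ),
    Reg G D → 60 ≤ m → (Fintype.card V : ℝ) ≤ Real.exp (m / 100) →
    (∀ e ∈ G.edgeSet, D + 10 ^ 12 * m ^ 5 ≤ (L e).card) → LC G.edgeSet L

/-- MGEN: all graphs. -/
def MainGen_stmt : Prop :=
  ∃ C : ℝ, 0 < C ∧ ∀ (V : Type) [Fintype V] (F : Set (Sym2 V)) (D : ℝ) (L : Sym2 V → Finset ℕ),
    2 ≤ Fintype.card V → (∀ v, s(v, v) ∉ F) → (∀ v, (dg F v : ℝ) ≤ D) →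
    (∀ e ∈ F, D + C * Real.log (Fintype.card V) ^ 5 ≤ ((L e).card : ℝ)) → LC F L

/-- FINB: final form of the upper bound. -/
def BoundP_stmt : Prop :=
  ∃ C : ℝ, ∀ (V : Type) [Fintype V] [DecidableEq V] (G : SimpleGraph V) [DecidableRel G.Adj],
    2 ≤ Fintype.card V →
    ∀ L : G.edgeSet → Finset ℕ,
      (∀ e, (G.maxDegree : ℝ) + C * Real.log (Fintype.card V) ^ 5 ≤ ((L e).card : ℝ)) →
      ∃ f : G.edgeSet → ℕ, (∀ e, f e ∈ L e) ∧ ∀ e e', G.lineGraph.Adj e e' → f e ≠ f e'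

/-- FING: final form of the gap theorem. -/
def GapP_stmt : Prop :=
  ∃ C : ℝ, ∀ (V : Type) [Fintype V] [DecidableEq V] (G : SimpleGraph V) [DecidableRel G.Adj]
    (h : ℕ), 2 ≤ Fintype.card V → 2 * h ≤ G.maxDegree →
    (∀ v, ((G.neighborFinset v).filter (fun u => (G.maxDegree : ℝ) - 2 * h -
      C * Real.log (Fintype.card V) ^ 5 < (G.degree u : ℝ))).card ≤ h) →
    ∀ k : ℕ, (G.lineGraph.Colorable k ↔ ∀ L : G.edgeSet → Finset ℕ, (∀ e, k ≤ (L e).card) →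
        ∃ f : G.edgeSet → ℕ, (∀ e, f e ∈ L e) ∧
          ∀ e e', G.lineGraph.Adj e e' → f e ≠ f e') ∧
      (G.lineGraph.Colorable k ↔ G.maxDegree ≤ k)

end

end Pool.Agent.Helper15.LP
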