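import Pool.Agent.Helper15.LP.EXCHa

set_option autoImplicit false

/-! EXCH: existence of the signs and of the exchange flows. -/

open Finset
open scoped Classical
open Pool.Agent.Helper15.LR

namespace Pool.Agent.Helper15.LP

noncomputable section

namespace EXCHb

lemma sum_w {V : Type} [Fintype V] (G : SimpleGraph V) (D m : ℕ) (R : Finset V)
    (w : (V → Bool) × (V → Bool) → ℝ) (hw : LevelW G D m R w) : ∑ p, w p = 1 := by
  rw [Fintype.sum_prod_type]
  rw [Finset.sum_congr rfl (fun x _ => hw.2.1 x), Finset.sum_const, Finset.card_univ]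
  simp only [Fintype.card_pi, Fintype.card_bool, Finset.prod_const, Finset.card_univ, nsmul_eq_mul]
  push_cast
  rw [← mul_pow]; norm_num

lemma pair_sum {V : Type} [Fintype V] (G : SimpleGraph V) (D m : ℕ) (R : Finset V)
    (w : (V → Bool) × (V → Bool) → ℝ) (hw : LevelW G D m R w)
    (P : (V → Bool) → (V → Bool) → Prop) :
    ∑ p, ∑ q, (if P p.1 q.1 then w p * w q else 0) =
      ((univ.filter (fun p : (V → Bool) × (V → Bool) => P p.1 p.2)).card : ℝ) /
        4 ^ Fintype.card V := by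
  have h1 : ∀ a b : V → Bool, ∑ c, ∑ d, (if P a b then w (a, c) * w (b, d) else 0) =
      if P a b then (1 / 4 : ℝ) ^ Fintype.card V else 0 := by
    intro a b
    by_cases h : P a b
    · simp only [h, if_true]
      rw [← Finset.sum_mul_sum, hw.2.1 a, hw.2.1 b, ← mul_pow]; norm_num
    · simp [h]
  rw [Fintype.sum_prod_type]
  have h2 : ∀ a : V → Bool, ∑ c : V → Bool, ∑ q : (V → Bool) × (V → Bool),
      (if P (a, c).1 q.1 then w (a, c) * w q else 0) =
      ∑ b : V → Bool, if P a b then (1 / 4 : ℝ) ^ Fintype.card V else 0 := by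
    intro a
    have : ∀ c : V → Bool, ∑ q : (V → Bool) × (V → Bool),
        (if P (a, c).1 q.1 then w (a, c) * w q else 0) =
        ∑ b : V → Bool, ∑ d : V → Bool, (if P a b then w (a, c) * w (b, d) else 0) := by
      intro c; rw [Fintype.sum_prod_type]
    rw [Finset.sum_congr rfl (fun c _ => this c), Finset.sum_comm]
    exact Finset.sum_congr rfl (fun b _ => h1 a b)
  rw [Finset.sum_congr rfl (fun a _ => h2 a)]
  rw [← Fintype.sum_prod_type' (f := fun a b : V → Bool => if P a b then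
    (1 / 4 : ℝ) ^ Fintype.card V else 0), ← Finset.sum_filter, Finset.sum_const, nsmul_eq_mul,
    one_div, inv_pow, div_eq_mul_inv]

/-- the function of the pattern for the excess -/
def rr {m : ℕ} (i j : Fin m) (I : Finset (Fin m)) : ℝ :=
  ((if i ∈ I then (1 : ℝ) else 0) - (if j ∈ I then 1 else 0)) / (I.card : ℝ)

lemma rr_le {m : ℕ} (i j : Fin m) (I : Finset (Fin m)) : |rr i j I| ≤ 1 := by
  unfold rr
  by_cases h : I.card = 0
  · simp [h]
  · have h1 : (1 : ℝ) ≤ I.card := by exact_mod_cast Nat.one_le_iff_ne_zero.2 h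
    rw [abs_div, abs_of_pos (by linarith : (0:ℝ) < I.card), div_le_one (by linarith)]
    refine le_trans ?_ h1
    by_cases hi : i ∈ I <;> by_cases hj : j ∈ I <;> simp [hi, hj]

lemma rr_sum {m : ℕ} (i j : Fin m) : ∑ I, rr i j I = 0 := by
  have h1 : ∑ I, rr i j (Equiv.finsetCongr (Equiv.swap i j) I) = ∑ I, rr i j I :=
    Equiv.sum_comp (Equiv.finsetCongr (Equiv.swap i j)) (rr i j)
  have h2 : ∀ I, rr i j (Equiv.finsetCongr (Equiv.swap i j) I) = - rr i j I := by
    intro I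
    unfold rr
    have e1 : i ∈ Equiv.finsetCongr (Equiv.swap i j) I ↔ j ∈ I := by
      simp [Equiv.finsetCongr_apply, Finset.mem_map_equiv]
    have e2 : j ∈ Equiv.finsetCongr (Equiv.swap i j) I ↔ i ∈ I := by
      simp [Equiv.finsetCongr_apply, Finset.mem_map_equiv]
    have e3 : (Equiv.finsetCongr (Equiv.swap i j) I).card = I.card := by
      simp [Equiv.finsetCongr_apply]
    simp only [e1, e2, e3]
    ring
  rw [Finset.sum_congr rfl (fun I _ => h2 I), Finset.sum_neg_distrib] at h1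
  linarith

lemma exp_le {m : ℕ} (hm : 60 ≤ m) : (m : ℝ) ^ 2 * Real.exp (-(m / 2)) ≤ 1 / 200 := by
  have hm' : (60 : ℝ) ≤ m := by exact_mod_cast hm
  have h1 := Real.pow_div_factorial_le_exp (x := (m : ℝ) / 2) (by positivity) 6
  have h2 : ((Nat.factorial 6 : ℕ) : ℝ) = 720 := by norm_num [Nat.factorial]
  rw [h2] at h1
  rw [Real.exp_neg]
  have h3 : (0:ℝ) < Real.exp (m / 2) := Real.exp_pos _
  rw [← div_eq_mul_inv, div_le_iff₀ h3]
  have h4 : (m : ℝ) ^ 2 * 200 ≤ (m / 2) ^ 6 / 720 := by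
    have h5 : (60 : ℝ) ^ 4 ≤ m ^ 4 := pow_le_pow_left₀ (by norm_num) hm' 4
    have h6 : (m / 2 : ℝ) ^ 6 / 720 = m ^ 2 * (m ^ 4 / 46080) := by ring
    rw [h6]
    apply mul_le_mul_of_nonneg_left _ (by positivity)
    rw [le_div_iff₀ (by norm_num)]
    linarith
  linarith

end EXCHb

open EXCHb

theorem lp_EXCH (hAv : Avoid_stmt) (hC2 : PPCond2_stmt) (hLap : Lap_stmt) (hRS : RSet_stmt)
    (hLev : Level_stmt) (hPZ : PartZ_stmt) (hRows : Rows_stmt) (hNone : NonE_stmt)
    (hGP : GoodPair_stmt) : Signs_stmt := by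
  intro V _ G D m r hReg hm hV hD hr1 hr0
  have hD0 := EXCHa.D_pos hm hD
  have hD1 : 1 ≤ D := by exact_mod_cast hD0
  have hsD : 0 < Real.sqrt D := Real.sqrt_pos.2 hD0
  have hm1 : 1 ≤ m := by omega
  have hD4 : 10 ^ 4 * m ≤ D := by
    refine le_trans ?_ hD
    apply Nat.mul_le_mul_left
    calc m = m ^ 1 := (pow_one m).symm
      _ ≤ m ^ 3 := Nat.pow_le_pow_right hm1 (by norm_num)
  obtain ⟨R, hR, hRp⟩ := hRS V G D m hReg hm hV hD4
  obtain ⟨w, hw⟩ := hLev V G D m R hReg hD1 hm1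
  have hw1 : ∑ p, w p = 1 := sum_w G D m R w hw
  have hw0 := hw.1
  let κ := (V → Bool) × (V → Bool)
  let EA : Fin m × Fin m → Set (Fin m → κ) := fun ij =>
    {x | ij.1 ≠ ij.2 ∧ ∃ (s : Bool) (u : V) (z : V → ℝ), Ve (x ij.1).1 (x ij.2).1 s u ∧
        IsPot G (x ij.1).1 (x ij.2).1 s (Real.sqrt D) (Th G ij.1 ij.2 s x) z ∧ BZ D m < |z u|}
  let EB : Fin m × Fin m → Set (Fin m → κ) := fun ij =>
    {x | ij.1 ≠ ij.2 ∧ ¬ GoodPair G D m (x ij.1).1 (x ij.2).1}
  let EC : Fin m × V → Set (Fin m → κ) := fun iu =>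
    {x | 25 * Real.sqrt (m * D) < |∑ v ∈ Nb G iu.2, r iu.1 iu.2 v (pat (tr x) iu.2 v)|}
  let ED : Fin m × Fin m × V → Set (Fin m → κ) := fun iju =>
    {x | 25 * Real.sqrt (m * D) < |∑ v ∈ Nb G iju.2.2, rr iju.1 iju.2.1 (pat (tr x) iju.2.2 v)|}
  let EE : Unit → Set (Fin m → κ) := fun _ =>
    {x | ∃ u v, u ≠ v ∧ ¬ (pat (tr x) u v).Nonempty}
  let ww : Fin m → κ → ℝ := fun _ p => w p
  have hm' : (60 : ℝ) ≤ m := by exact_mod_cast hm
  have hPA : ∀ ij, PP ww (EA ij) ≤ 5 * Real.exp (-(m / 2)) := by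
    intro ij
    by_cases h : ij.1 = ij.2
    · have : EA ij = ∅ := by
        ext x; simp only [EA, Set.mem_ofPred_eq, Set.mem_empty_iff_false, iff_false]
        exact fun h2 => h2.1 h
      rw [this]
      simp only [PP, Set.mem_empty_iff_false, if_false, Finset.sum_const_zero]
      positivity
    · have := hPZ V G D m R w ij.1 ij.2 hReg hm hV hD hR hRp hw h
      have e : EA ij = {x : Fin m → κ | ∃ (s : Bool) (u : V) (z : V → ℝ),
          Ve (x ij.1).1 (x ij.2).1 s u ∧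
          IsPot G (x ij.1).1 (x ij.2).1 s (Real.sqrt D) (Th G ij.1 ij.2 s x) z ∧
          BZ D m < |z u|} := by
        ext x; simp only [EA, Set.mem_ofPred_eq]
        exact ⟨fun h2 => h2.2, fun h2 => ⟨h, h2⟩⟩
      rw [e]; exact this
  have hPB : ∀ ij, PP ww (EB ij) ≤ Real.exp (-m) := by
    intro ij
    by_cases h : ij.1 = ij.2
    · have : EB ij = ∅ := by
        ext x; simp only [EB, Set.mem_ofPred_eq, Set.mem_empty_iff_false, iff_false]
        exact fun h2 => h2.1 h
      rw [this]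
      simp only [PP, Set.mem_empty_iff_false, if_false, Finset.sum_const_zero]
      positivity
    · have h1 := hC2 (Fin m) κ w (fun p q => ¬ GoodPair G D m p.1 q.1) ij.1 ij.2 h hw1
      have e : EB ij = {x : Fin m → κ | ¬ GoodPair G D m (x ij.1).1 (x ij.2).1} := by
        ext x; simp only [EB, Set.mem_ofPred_eq]
        exact ⟨fun h2 => h2.2, fun h2 => ⟨h, h2⟩⟩
      rw [e]
      have h2 := pair_sum G D m R w hw (fun a b => ¬ GoodPair G D m a b)
      have h3 := hGP V G D m hReg hD1 hm hV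
      refine (le_of_eq (h1.trans h2)).trans ?_
      rw [div_le_iff₀ (by positivity), mul_comm]
      refine le_trans (le_of_eq ?_) h3
      have h4 : ∀ (A B : Finset ((V → Bool) × (V → Bool))), A = B → (A.card : ℝ) = B.card := by
        intro A B h; rw [h]
      apply h4
      ext p
      simp only [mem_filter, mem_univ, true_and]
  have hPC : ∀ iu, PP ww (EC iu) ≤ Real.exp (-(2 * m)) := by
    intro iu
    exact hRows V G D m R w iu.2 (fun v I => r iu.1 iu.2 v I) hReg hm hD1 hR hw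
      (fun v I => hr1 _ _ _ _) (fun v => hr0 _ _ _)
  have hPD : ∀ iju, PP ww (ED iju) ≤ Real.exp (-(2 * m)) := by
    intro iju
    exact hRows V G D m R w iju.2.2 (fun v I => rr iju.1 iju.2.1 I) hReg hm hD1 hR hw
      (fun v I => rr_le _ _ _) (fun v => rr_sum _ _)
  have hPE : ∀ t, PP ww (EE t) ≤ Real.exp (-(m / 10)) := by
    intro t
    exact hNone V G D m R w hm hV hw
  let J := (Fin m × Fin m) ⊕ ((Fin m × Fin m) ⊕ ((Fin m × V) ⊕ ((Fin m × Fin m × V) ⊕ Unit)))
  let E : J → Set (Fin m → κ) :=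
    Sum.elim EA (Sum.elim EB (Sum.elim EC (Sum.elim ED EE)))
  have hsum : ∑ j, PP ww (E j) < 1 := by
    have h1 : ∑ j, PP ww (E j) = ∑ a, PP ww (EA a) + (∑ a, PP ww (EB a) + (∑ a, PP ww (EC a) +
        (∑ a, PP ww (ED a) + ∑ a, PP ww (EE a)))) := by
      simp only [J, E, Fintype.sum_sum_type, Sum.elim_inl, Sum.elim_inr]
    rw [h1]
    have cA : ∑ a, PP ww (EA a) ≤ (m : ℝ) ^ 2 * (5 * Real.exp (-(m / 2))) := by
      refine (Finset.sum_le_sum (fun a _ => hPA a)).trans (le_of_eq ?_)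
      rw [Finset.sum_const, Finset.card_univ, Fintype.card_prod, Fintype.card_fin, nsmul_eq_mul]
      push_cast; ring
    have cB : ∑ a, PP ww (EB a) ≤ (m : ℝ) ^ 2 * Real.exp (-m) := by
      refine (Finset.sum_le_sum (fun a _ => hPB a)).trans (le_of_eq ?_)
      rw [Finset.sum_const, Finset.card_univ, Fintype.card_prod, Fintype.card_fin, nsmul_eq_mul]
      push_cast; ring
    have cC : ∑ a, PP ww (EC a) ≤ (m : ℝ) * Fintype.card V * Real.exp (-(2 * m)) := by
      refine (Finset.sum_le_sum (fun a _ => hPC a)).trans (le_of_eq ?_)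
      rw [Finset.sum_const, Finset.card_univ, Fintype.card_prod, Fintype.card_fin, nsmul_eq_mul]
      push_cast; ring
    have cD : ∑ a, PP ww (ED a) ≤ (m : ℝ) ^ 2 * Fintype.card V * Real.exp (-(2 * m)) := by
      refine (Finset.sum_le_sum (fun a _ => hPD a)).trans (le_of_eq ?_)
      rw [Finset.sum_const, Finset.card_univ, Fintype.card_prod, Fintype.card_prod,
        Fintype.card_fin, nsmul_eq_mul]
      push_cast; ring
    have cE : ∑ a, PP ww (EE a) ≤ Real.exp (-(m / 10)) := by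
      refine (Finset.sum_le_sum (fun a _ => hPE a)).trans (le_of_eq ?_)
      simp
    have x1 := exp_le hm
    have x2 : Real.exp (-m) ≤ Real.exp (-(m / 2)) := Real.exp_le_exp.2 (by linarith)
    have x3 : (Fintype.card V : ℝ) * Real.exp (-(2 * m)) ≤ Real.exp (-(m / 2)) := by
      calc (Fintype.card V : ℝ) * Real.exp (-(2 * m)) ≤ Real.exp (m / 100) * Real.exp (-(2 * m)) :=
            mul_le_mul_of_nonneg_right hV (Real.exp_pos _).le
        _ = Real.exp (m / 100 + -(2 * m)) := (Real.exp_add _ _).symm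
        _ ≤ _ := Real.exp_le_exp.2 (by linarith)
    have x4 : Real.exp (-(m / 10)) ≤ 1 / 7 := by
      rw [Real.exp_neg, inv_eq_one_div]
      apply one_div_le_one_div_of_le (by norm_num)
      have := Real.add_one_le_exp ((m : ℝ) / 10)
      linarith
    have y1 : (m : ℝ) ^ 2 * Real.exp (-m) ≤ 1 / 200 :=
      (mul_le_mul_of_nonneg_left x2 (by positivity)).trans x1
    have y2 : (m : ℝ) ^ 2 * Fintype.card V * Real.exp (-(2 * m)) ≤ 1 / 200 := by
      rw [mul_assoc]
      exact (mul_le_mul_of_nonneg_left x3 (by positivity)).trans x1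
    have y3 : (m : ℝ) * Fintype.card V * Real.exp (-(2 * m)) ≤ 1 / 200 := by
      refine le_trans ?_ y2
      rw [mul_assoc, mul_assoc]
      apply mul_le_mul_of_nonneg_right _ (by positivity)
      nlinarith
    linarith
  obtain ⟨x, hx, hxw⟩ := hAv (Fin m) κ J ww E (fun _ p => hw0 p) (fun _ => hw1) hsum
  have nA : ∀ ij, x ∉ EA ij := fun a => hx (Sum.inl a)
  have nB : ∀ ij, x ∉ EB ij := fun a => hx (Sum.inr (Sum.inl a))
  have nC : ∀ ij, x ∉ EC ij := fun a => hx (Sum.inr (Sum.inr (Sum.inl a)))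
  have nD : ∀ ij, x ∉ ED ij := fun a => hx (Sum.inr (Sum.inr (Sum.inr (Sum.inl a))))
  have nE : ∀ ij, x ∉ EE ij := fun a => hx (Sum.inr (Sum.inr (Sum.inr (Sum.inr a))))
  have hag : ∀ k v, v ∉ R → (x k).2 v = (x k).1 v := by
    intro k v hv
    exact hw.2.2.1 (x k).1 (x k).2 v (hxw k).ne' hv
  have hg : ∀ i j, i ≠ j → GoodPair G D m (x i).1 (x j).1 := by
    intro i j hij
    by_contra hc
    exact nB (i, j) ⟨hij, hc⟩
  have hzz : ∀ i j : Fin m, i ≠ j → ∃ z : Bool → V → ℝ,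
      (∀ s, IsPot G (x i).1 (x j).1 s (Real.sqrt D) (Th G i j s x) (z s)) ∧
      (∀ s u, Ve (x i).1 (x j).1 s u → |z s u| ≤ BZ D m) := by
    intro i j hij
    have h1 : ∀ s : Bool, ∃ z, IsPot G (x i).1 (x j).1 s (Real.sqrt D) (Th G i j s x) z :=
      fun s => (hLap V G (x i).1 (x j).1 s (Real.sqrt D) hsD).1 _
    choose z hz using h1
    refine ⟨z, hz, ?_⟩
    intro s u hu
    by_contra hc
    exact nA (i, j) ⟨hij, s, u, z s, hu, hz s, not_le.1 hc⟩
  have hth : ∀ i j u, |EXCHa.th G x i j u| ≤ 25 * Real.sqrt (m * D) := by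
    intro i j u
    by_contra hc
    exact nD (i, j, u) (not_le.1 hc)
  obtain ⟨β, b1, b2, b3, b4, b5, b6⟩ := EXCHa.det hReg hm hD hR hag hg hzz hth
  refine ⟨tr x, β, ?_, ?_, b1, b2, b3, b4, b5, b6⟩
  · intro u v huv
    by_contra hc
    exact nE () ⟨u, v, huv.ne, hc⟩
  · intro i u
    by_contra hc
    exact nC (i, u) (not_le.1 hc)

end

end Pool.Agent.Helper15.LP
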