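import Pool.Agent.Helper15.LP.Defs

set_option autoImplicit false

/-! EXCH, deterministic part: the flow between two levels. -/

open Finset
open scoped Classical
open Pool.Agent.Helper15.LR

namespace Pool.Agent.Helper15.LP

noncomputable section

namespace EXCHa

variable {V : Type} [Fintype V] {G : SimpleGraph V} {D m : ℕ} {R : Finset V}
  {x : Fin m → (V → Bool) × (V → Bool)} {i j : Fin m}

/-- unsigned excess -/
def th (G : SimpleGraph V) (x : Fin m → (V → Bool) × (V → Bool)) (i j : Fin m) (u : V) : ℝ :=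
  ∑ v ∈ Nb G u, ((if i ∈ pat (tr x) u v then (1 : ℝ) else 0) -
    (if j ∈ pat (tr x) u v then 1 else 0)) / ((pat (tr x) u v).card : ℝ)

/-- both levels are crossed -/
def bo (x : Fin m → (V → Bool) × (V → Bool)) (i j : Fin m) (u v : V) : Prop :=
  i ∈ pat (tr x) u v ∧ j ∈ pat (tr x) u v

/-- number of neighbours outside `R` crossing both levels -/
def nn (G : SimpleGraph V) (R : Finset V) (x : Fin m → (V → Bool) × (V → Bool)) (i j : Fin m)
    (u : V) : ℝ := (((Nb G u).filter (fun v => v ∉ R ∧ bo x i j u v)).card : ℝ)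

/-- sign of the product -/
def sS (x : Fin m → (V → Bool) × (V → Bool)) (i j : Fin m) (u : V) : Bool :=
  decide ((x i).1 u = (x j).1 u)

/-- the flow -/
def be (G : SimpleGraph V) (R : Finset V) (x : Fin m → (V → Bool) × (V → Bool)) (i j : Fin m)
    (z : Bool → V → ℝ) (u v : V) : ℝ :=
  if G.Adj u v ∧ bo x i j u v then
    (if u ∈ R then (if v ∈ R then 0 else th G x i j u / nn G R x i j u)
      else (if v ∈ R then th G x i j v / nn G R x i j v
        else sgn (tr x u j) * (z (sS x i j u) u - z (sS x i j u) v)))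
  else 0

lemma mem_pat {σ : V → Fin m → Bool} {u v : V} {k : Fin m} : k ∈ pat σ u v ↔ σ u k ≠ σ v k := by
  simp [pat]

lemma pat_comm (σ : V → Fin m → Bool) (u v : V) : pat σ u v = pat σ v u := by
  ext k; rw [mem_pat, mem_pat]; exact ne_comm

lemma bo_comm {u v : V} : bo x i j u v ↔ bo x i j v u := by
  unfold bo; rw [pat_comm]

lemma mem_Nb {u v : V} : v ∈ Nb G u ↔ G.Adj u v := by simp [Nb]

lemma sgn_sq (b : Bool) : sgn b * sgn b = 1 := by cases b <;> simp [sgn]

lemma abs_sg (b : Bool) : |sgn b| = 1 := by cases b <;> simp [sgn]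

lemma card_pat (hij : i ≠ j) (σ : V → Fin m → Bool) (u v : V) :
    ((pat σ u v).card : ℝ) = ((univ.filter (fun k : Fin m => k ≠ i ∧ k ≠ j ∧ σ u k ≠ σ v k)).card
      : ℝ) + (if i ∈ pat σ u v then 1 else 0) + (if j ∈ pat σ u v then 1 else 0) := by
  have h : pat σ u v = (univ.filter (fun k : Fin m => k ≠ i ∧ k ≠ j ∧ σ u k ≠ σ v k)) ∪
      ((if i ∈ pat σ u v then {i} else ∅) ∪ (if j ∈ pat σ u v then {j} else ∅)) := by
    ext k
    simp only [mem_pat, mem_union, mem_filter, mem_univ, true_and]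
    by_cases hki : k = i
    · subst hki
      by_cases h1 : σ u k ≠ σ v k
      · simp [mem_pat, h1]
      · simp only [not_not] at h1
        by_cases h2 : σ u j ≠ σ v j
        · simp [h1, h2, hij]
        · simp only [not_not] at h2
          simp [h1, h2]
    · by_cases hkj : k = j
      · subst hkj
        by_cases h1 : σ u k ≠ σ v k
        · simp [h1]
        · simp only [not_not] at h1
          by_cases h2 : σ u i ≠ σ v i
          · simp [h1, h2, hki]
          · simp only [not_not] at h2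
            simp [h1, h2]
      · by_cases h1 : σ u i ≠ σ v i <;> by_cases h2 : σ u j ≠ σ v j <;>
          simp [h1, h2, hki, hkj]
  have hd1 : Disjoint (univ.filter (fun k : Fin m => k ≠ i ∧ k ≠ j ∧ σ u k ≠ σ v k))
      ((if i ∈ pat σ u v then {i} else ∅) ∪ (if j ∈ pat σ u v then {j} else ∅)) := by
    rw [Finset.disjoint_left]
    intro k hk hk2
    simp only [mem_filter, mem_univ, true_and] at hk
    rw [mem_union] at hk2
    rcases hk2 with h2 | h2
    · split_ifs at h2 with h3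
      · exact hk.1 (by simpa using h2)
      · simp at h2
    · split_ifs at h2 with h3
      · exact hk.2.1 (by simpa using h2)
      · simp at h2
  have hd2 : Disjoint (if i ∈ pat σ u v then ({i} : Finset (Fin m)) else ∅)
      (if j ∈ pat σ u v then {j} else ∅) := by
    split_ifs <;> simp [hij]
  have hc := congrArg Finset.card h
  rw [card_union_of_disjoint hd1, card_union_of_disjoint hd2] at hc
  rw [hc]
  push_cast
  have e1 : (((if i ∈ pat σ u v then ({i} : Finset (Fin m)) else ∅).card : ℕ) : ℝ) =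
      if i ∈ pat σ u v then 1 else 0 := by split_ifs <;> simp
  have e2 : (((if j ∈ pat σ u v then ({j} : Finset (Fin m)) else ∅).card : ℕ) : ℝ) =
      if j ∈ pat σ u v then 1 else 0 := by split_ifs <;> simp
  rw [e1, e2]; ring

lemma Th_eq (hij : i ≠ j) {u : V} (hu : ∀ k, (x k).1 u = (x k).2 u) :
    Th G i j (sS x i j u) x u = sgn (tr x u j) * th G x i j u := by
  unfold Th th
  rw [Finset.mul_sum]
  refine Finset.sum_congr rfl (fun v _ => ?_)
  have hc := card_pat hij (tr x) u v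
  have hc' : ((univ.filter (fun k : Fin m => k ≠ i ∧ k ≠ j ∧ (x k).1 u ≠ (x k).2 v)).card : ℝ) =
      ((univ.filter (fun k : Fin m => k ≠ i ∧ k ≠ j ∧ tr x u k ≠ tr x v k)).card : ℝ) := by
    congr 2
    ext k
    simp only [mem_filter, mem_univ, true_and]
    rw [hu k]; rfl
  rw [hc']
  set c : ℝ := ((univ.filter (fun k : Fin m => k ≠ i ∧ k ≠ j ∧ tr x u k ≠ tr x v k)).card : ℝ)
    with hcdef
  have hc0 : 0 ≤ c := by positivity
  rw [hc]
  simp only [mem_pat]
  unfold sS tr
  rw [hu i, hu j]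
  generalize hA : (x i).2 u = A
  generalize hB : (x j).2 u = B
  generalize hA' : (x i).2 v = A'
  generalize hB' : (x j).2 v = B'
  have h1c : (1 : ℝ) + c ≠ 0 := by positivity
  have h1c' : c + 1 ≠ 0 := by positivity
  cases A <;> cases B <;> cases A' <;> cases B' <;> simp [sgn] <;> field_simp <;> ring


/-! ### symmetry and support -/

lemma aux_s : ∀ (A B A' B' : Bool), A ≠ A' → B ≠ B' → decide (A = B) = decide (A' = B') := by
  decide

lemma aux_t (B B' : Bool) (h : B ≠ B') : sgn B = -sgn B' := by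
  cases B <;> cases B' <;> simp_all [sgn]

lemma be_comm (z : Bool → V → ℝ) (hag : ∀ k v, v ∉ R → (x k).2 v = (x k).1 v) (u v : V) :
    be G R x i j z u v = be G R x i j z v u := by
  unfold be
  by_cases h : G.Adj u v ∧ bo x i j u v
  · have h' : G.Adj v u ∧ bo x i j v u := ⟨h.1.symm, bo_comm.1 h.2⟩
    rw [if_pos h, if_pos h']
    by_cases hu : u ∈ R <;> by_cases hv : v ∈ R
    · rw [if_pos hu, if_pos hv, if_pos hv, if_pos hu]
    · rw [if_pos hu, if_neg hv, if_neg hv, if_pos hu]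
    · rw [if_neg hu, if_pos hv, if_pos hv, if_neg hu]
    · rw [if_neg hu, if_neg hv, if_neg hv, if_neg hu]
      have h1 := h.2.1
      have h2 := h.2.2
      rw [mem_pat] at h1 h2
      have hs : sS x i j u = sS x i j v := by
        unfold sS
        have e1 := hag i u hu
        have e2 := hag j u hu
        have e3 := hag i v hv
        have e4 := hag j v hv
        unfold tr at h1 h2
        rw [e1, e3] at h1
        rw [e2, e4] at h2
        exact aux_s _ _ _ _ h1 h2
      have ht : sgn (tr x u j) = -sgn (tr x v j) := aux_t _ _ h2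
      rw [hs, ht]; ring
  · have h' : ¬ (G.Adj v u ∧ bo x i j v u) := fun h2 => h ⟨h2.1.symm, bo_comm.1 h2.2⟩
    rw [if_neg h, if_neg h']

lemma be_supp (z : Bool → V → ℝ) (u v : V) (h : be G R x i j z u v ≠ 0) :
    G.Adj u v ∧ i ∈ pat (tr x) u v ∧ j ∈ pat (tr x) u v := by
  unfold be at h
  by_contra h2
  apply h
  rw [if_neg]
  intro h3
  exact h2 ⟨h3.1, h3.2.1, h3.2.2⟩

/-! ### numerics -/

lemma sq_le {D m : ℕ} (hm : 60 ≤ m) (hD : 10 ^ 4 * m ^ 3 ≤ D) :
    Real.sqrt (m * D) ≤ D / 6000 := by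
  have hm' : (60 : ℝ) ≤ m := by exact_mod_cast hm
  have hD' : (10 : ℝ) ^ 4 * m ^ 3 ≤ D := by exact_mod_cast hD
  have hD0 : (0 : ℝ) ≤ D := by positivity
  rw [Real.sqrt_le_left (by positivity)]
  have h1 : (m : ℝ) * (6000 ^ 2) ≤ D := by
    have : (m : ℝ) * 6000 ^ 2 ≤ 10 ^ 4 * m ^ 3 := by nlinarith [mul_nonneg (show (0:ℝ) ≤ m by positivity) (show (0:ℝ) ≤ (m:ℝ)^2 - 3600 by nlinarith)]
    linarith
  rw [div_pow, le_div_iff₀ (by positivity)]
  nlinarith

lemma D_pos {D m : ℕ} (hm : 60 ≤ m) (hD : 10 ^ 4 * m ^ 3 ≤ D) : (0 : ℝ) < D := by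
  have : 0 < 10 ^ 4 * m ^ 3 := by positivity
  have : 0 < D := lt_of_lt_of_le this hD
  exact_mod_cast this

lemma nn_ge (hm : 60 ≤ m) (hD : 10 ^ 4 * m ^ 3 ≤ D) (hR : GoodR G D m R)
    (hag : ∀ k v, v ∉ R → (x k).2 v = (x k).1 v) (hg : GoodPair G D m (x i).1 (x j).1) (u : V) :
    (D : ℝ) / 8 ≤ nn G R x i j u := by
  have h1 := hg.1 u (!(tr x u i)) (!(tr x u j))
  have h2 := (hR u).2
  have h3 := sq_le hm hD
  have hD0 := D_pos hm hD
  have hsub : (Nb G u).filter (fun w => (x i).1 w = !(tr x u i) ∧ (x j).1 w = !(tr x u j)) ⊆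
      (Nb G u).filter (fun v => v ∉ R ∧ bo x i j u v) ∪ (Nb G u).filter (fun b => b ∈ R) := by
    intro w hw
    simp only [mem_filter, mem_union] at hw ⊢
    by_cases hwR : w ∈ R
    · right; exact ⟨hw.1, hwR⟩
    · left
      refine ⟨hw.1, hwR, ?_, ?_⟩
      · rw [mem_pat]
        have e := hag i w hwR
        intro h
        have : tr x w i = (x i).2 w := rfl
        rw [this, e, hw.2.1] at h
        cases h5 : tr x u i <;> simp [h5] at h
      · rw [mem_pat]
        have e := hag j w hwR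
        intro h
        have : tr x w j = (x j).2 w := rfl
        rw [this, e, hw.2.2] at h
        cases h5 : tr x u j <;> simp [h5] at h
  have hcard := (card_le_card hsub).trans (card_union_le _ _)
  have hcard' : (((Nb G u).filter (fun w => (x i).1 w = !(tr x u i) ∧ (x j).1 w = !(tr x u j))).card
      : ℝ) ≤ nn G R x i j u + NR G R u := by
    unfold nn NR; exact_mod_cast hcard
  rw [abs_le] at h1
  linarith [h1.1]

lemma z_le (z : Bool → V → ℝ)
    (hz : ∀ s, IsPot G (x i).1 (x j).1 s (Real.sqrt D) (Th G i j s x) (z s))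
    (hzb : ∀ s u, Ve (x i).1 (x j).1 s u → |z s u| ≤ BZ D m) (s : Bool) (u : V) :
    |z s u| ≤ BZ D m := by
  by_cases h : Ve (x i).1 (x j).1 s u
  · exact hzb s u h
  · rw [(hz s).1 u h, abs_zero]; unfold BZ; positivity

lemma be_le (hm : 60 ≤ m) (hD : 10 ^ 4 * m ^ 3 ≤ D) (hR : GoodR G D m R)
    (hag : ∀ k v, v ∉ R → (x k).2 v = (x k).1 v) (hg : GoodPair G D m (x i).1 (x j).1)
    (z : Bool → V → ℝ)
    (hz : ∀ s, IsPot G (x i).1 (x j).1 s (Real.sqrt D) (Th G i j s x) (z s))
    (hzb : ∀ s u, Ve (x i).1 (x j).1 s u → |z s u| ≤ BZ D m)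
    (hth : ∀ u, |th G x i j u| ≤ 25 * Real.sqrt (m * D)) (u v : V) :
    |be G R x i j z u v| ≤ (if u ∈ R ∨ v ∈ R then 200 * Real.sqrt (m * D) / D else 2 * BZ D m) := by
  have hD0 := D_pos hm hD
  have hB0 : 0 ≤ BZ D m := by unfold BZ; positivity
  have hq : ∀ w, |th G x i j w / nn G R x i j w| ≤ 200 * Real.sqrt (m * D) / D := by
    intro w
    have h1 := nn_ge hm hD hR hag hg w
    have h2 : 0 < nn G R x i j w := lt_of_lt_of_le (by positivity) h1
    rw [abs_div, abs_of_pos h2, div_le_div_iff₀ h2 hD0]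
    have h3 := hth w
    have h4 := abs_nonneg (th G x i j w)
    have h5 : (0:ℝ) ≤ Real.sqrt (m * D) := Real.sqrt_nonneg _
    nlinarith
  have hpos : (0 : ℝ) ≤ 200 * Real.sqrt (m * D) / D := by positivity
  unfold be
  by_cases h : G.Adj u v ∧ bo x i j u v
  · rw [if_pos h]
    by_cases hu : u ∈ R <;> by_cases hv : v ∈ R
    · simp only [hu, hv, if_true, or_self]; rw [abs_zero]; exact hpos
    · simp only [hu, hv, if_true, true_or, if_false]; exact hq u
    · simp only [hu, hv, if_true, or_true, if_false]; exact hq v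
    · simp only [hu, hv, or_self, if_false]
      rw [abs_mul, abs_sg, one_mul]
      have h1 := z_le z hz hzb (sS x i j u) u
      have h2 := z_le z hz hzb (sS x i j u) v
      calc |z (sS x i j u) u - z (sS x i j u) v| ≤ |z (sS x i j u) u| + |z (sS x i j u) v| :=
            abs_sub _ _
        _ ≤ 2 * BZ D m := by linarith
  · rw [if_neg h, abs_zero]
    split_ifs
    · exact hpos
    · positivity

lemma sqrt_mD {m D : ℕ} : Real.sqrt ((m : ℝ) * D) = Real.sqrt m * Real.sqrt D :=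
  Real.sqrt_mul (by positivity) _

lemma quo_le (hm : 60 ≤ m) (hD : 10 ^ 4 * m ^ 3 ≤ D) :
    200 * Real.sqrt (m * D) / D ≤ 2 * BZ D m := by
  have hD0 := D_pos hm hD
  have hsD : 0 < Real.sqrt D := Real.sqrt_pos.2 hD0
  have hm' : (60 : ℝ) ≤ m := by exact_mod_cast hm
  have h1 : 200 * Real.sqrt (m * D) / D = 200 * Real.sqrt m / Real.sqrt D := by
    rw [sqrt_mD, div_eq_div_iff hD0.ne' hsD.ne']
    have := Real.mul_self_sqrt hD0.le
    calc 200 * (Real.sqrt m * Real.sqrt D) * Real.sqrt D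
        = 200 * Real.sqrt m * (Real.sqrt D * Real.sqrt D) := by ring
      _ = 200 * Real.sqrt m * D := by rw [this]
  rw [h1]
  unfold BZ
  rw [← mul_div_assoc]
  apply div_le_div_of_nonneg_right _ hsD.le
  have : 0 ≤ Real.sqrt m := Real.sqrt_nonneg _
  nlinarith

lemma be_le2 (hm : 60 ≤ m) (hD : 10 ^ 4 * m ^ 3 ≤ D) (hR : GoodR G D m R)
    (hag : ∀ k v, v ∉ R → (x k).2 v = (x k).1 v) (hg : GoodPair G D m (x i).1 (x j).1)
    (z : Bool → V → ℝ)
    (hz : ∀ s, IsPot G (x i).1 (x j).1 s (Real.sqrt D) (Th G i j s x) (z s))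
    (hzb : ∀ s u, Ve (x i).1 (x j).1 s u → |z s u| ≤ BZ D m)
    (hth : ∀ u, |th G x i j u| ≤ 25 * Real.sqrt (m * D)) (u v : V) :
    |be G R x i j z u v| ≤ 2 * BZ D m := by
  refine (be_le hm hD hR hag hg z hz hzb hth u v).trans ?_
  split_ifs
  · exact quo_le hm hD
  · exact le_refl _

lemma sum_Nb (z : Bool → V → ℝ) (u : V) (φ : ℝ → ℝ) (h0 : φ 0 = 0) :
    ∑ v, φ (be G R x i j z u v) = ∑ v ∈ Nb G u, φ (be G R x i j z u v) := by
  symm
  apply Finset.sum_subset (Finset.subset_univ _)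
  intro v _ hv
  rw [mem_Nb] at hv
  have : be G R x i j z u v = 0 := by
    unfold be; rw [if_neg]; exact fun h => hv h.1
  rw [this, h0]

lemma BZ_mul (hm : 60 ≤ m) (hD : 10 ^ 4 * m ^ 3 ≤ D) :
    (D : ℝ) * BZ D m = 10 ^ 4 * (m * Real.sqrt m) * Real.sqrt D := by
  have hD0 := D_pos hm hD
  have hsD : 0 < Real.sqrt D := Real.sqrt_pos.2 hD0
  unfold BZ
  rw [← mul_div_assoc, div_eq_iff hsD.ne']
  have := Real.mul_self_sqrt hD0.le
  calc (D : ℝ) * (10 ^ 4 * (m * Real.sqrt m)) = 10 ^ 4 * (m * Real.sqrt m) * D := by ring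
    _ = 10 ^ 4 * (m * Real.sqrt m) * (Real.sqrt D * Real.sqrt D) := by rw [this]
    _ = _ := by ring

lemma sum_abs (hReg : Reg G D) (hm : 60 ≤ m) (hD : 10 ^ 4 * m ^ 3 ≤ D) (hR : GoodR G D m R)
    (hag : ∀ k v, v ∉ R → (x k).2 v = (x k).1 v) (hg : GoodPair G D m (x i).1 (x j).1)
    (z : Bool → V → ℝ)
    (hz : ∀ s, IsPot G (x i).1 (x j).1 s (Real.sqrt D) (Th G i j s x) (z s))
    (hzb : ∀ s u, Ve (x i).1 (x j).1 s u → |z s u| ≤ BZ D m)
    (hth : ∀ u, |th G x i j u| ≤ 25 * Real.sqrt (m * D)) (u : V) :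
    ∑ v, |be G R x i j z u v| ≤ 10 ^ 5 * (m * Real.sqrt m) * Real.sqrt D := by
  rw [sum_Nb z u (fun t => |t|) abs_zero]
  have h1 : ∑ v ∈ Nb G u, |be G R x i j z u v| ≤ ∑ v ∈ Nb G u, 2 * BZ D m :=
    Finset.sum_le_sum (fun v _ => be_le2 hm hD hR hag hg z hz hzb hth u v)
  rw [Finset.sum_const, hReg u, nsmul_eq_mul] at h1
  have h2 := BZ_mul hm hD
  have h3 : (0:ℝ) ≤ (m * Real.sqrt m) * Real.sqrt D := by positivity
  nlinarith

/-- inside `R` the flow has the right divergence -/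
lemma div_mem (hm : 60 ≤ m) (hD : 10 ^ 4 * m ^ 3 ≤ D) (hR : GoodR G D m R)
    (hag : ∀ k v, v ∉ R → (x k).2 v = (x k).1 v) (hg : GoodPair G D m (x i).1 (x j).1)
    (z : Bool → V → ℝ) (u : V) (hu : u ∈ R) :
    ∑ v, be G R x i j z u v = th G x i j u := by
  rw [sum_Nb z u (fun t => t) rfl]
  have h1 := nn_ge hm hD hR hag hg u
  have hD0 := D_pos hm hD
  have h2 : 0 < nn G R x i j u := lt_of_lt_of_le (by positivity) h1
  have h3 : ∀ v ∈ Nb G u, be G R x i j z u v =
      if v ∉ R ∧ bo x i j u v then th G x i j u / nn G R x i j u else 0 := by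
    intro v hv
    rw [mem_Nb] at hv
    unfold be
    by_cases hb : bo x i j u v
    · rw [if_pos ⟨hv, hb⟩, if_pos hu]
      by_cases hvR : v ∈ R
      · rw [if_pos hvR, if_neg (by tauto)]
      · rw [if_neg hvR, if_pos ⟨hvR, hb⟩]
    · rw [if_neg (by tauto), if_neg (by tauto)]
  rw [Finset.sum_congr rfl h3, ← Finset.sum_filter, Finset.sum_const, nsmul_eq_mul]
  have h4 : (((Nb G u).filter (fun v => v ∉ R ∧ bo x i j u v)).card : ℝ) = nn G R x i j u := rfl
  rw [h4]
  field_simp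

/-- crossing both levels outside `R` -/
lemma bo_iff {u v : V} (hag : ∀ k v, v ∉ R → (x k).2 v = (x k).1 v) (hu : u ∉ R) (hv : v ∉ R) :
    bo x i j u v ↔ (Ve (x i).1 (x j).1 (sS x i j u) v ∧ (x j).1 v ≠ (x j).1 u) := by
  unfold bo
  rw [mem_pat, mem_pat]
  unfold tr Ve sS
  rw [hag i u hu, hag j u hu, hag i v hv, hag j v hv]
  generalize (x i).1 u = A
  generalize (x j).1 u = B
  generalize (x i).1 v = A'
  generalize (x j).1 v = B'
  revert A B A' B'
  decide

lemma div_notMem (hm : 60 ≤ m) (hD : 10 ^ 4 * m ^ 3 ≤ D) (hR : GoodR G D m R) (hij : i ≠ j)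
    (hag : ∀ k v, v ∉ R → (x k).2 v = (x k).1 v) (hg : GoodPair G D m (x i).1 (x j).1)
    (z : Bool → V → ℝ)
    (hz : ∀ s, IsPot G (x i).1 (x j).1 s (Real.sqrt D) (Th G i j s x) (z s))
    (hzb : ∀ s u, Ve (x i).1 (x j).1 s u → |z s u| ≤ BZ D m)
    (hth : ∀ u, |th G x i j u| ≤ 25 * Real.sqrt (m * D)) (u : V) (hu : u ∉ R) :
    |∑ v, be G R x i j z u v - th G x i j u| ≤ 10 ^ 6 * m ^ 2 := by
  have hD0 := D_pos hm hD
  have hsD : 0 < Real.sqrt D := Real.sqrt_pos.2 hD0
  have hm' : (60 : ℝ) ≤ m := by exact_mod_cast hm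
  have hB0 : 0 ≤ BZ D m := by unfold BZ; positivity
  set s := sS x i j u with hs
  have hVu : Ve (x i).1 (x j).1 s u := by
    rw [hs]; unfold Ve sS; simp
  have hpot := (hz s).2 u hVu
  have hTh : Th G i j s x u = sgn (tr x u j) * th G x i j u :=
    Th_eq hij (fun k => (hag k u hu).symm)
  set E := (Nb G u).filter (fun v => Ve (x i).1 (x j).1 s v ∧ (x j).1 v ≠ (x j).1 u) with hE
  have hLap : Lap G (x i).1 (x j).1 s (z s) u =
      ∑ v ∈ E.filter (fun v => v ∉ R), (z s u - z s v) +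
        ∑ v ∈ E.filter (fun v => ¬ v ∉ R), (z s u - z s v) := by
    unfold Lap
    rw [Finset.sum_filter_add_sum_filter_not]
  have hsum : ∑ v, be G R x i j z u v =
      sgn (tr x u j) * ∑ v ∈ E.filter (fun v => v ∉ R), (z s u - z s v) +
        ∑ v ∈ (Nb G u).filter (fun v => v ∈ R), be G R x i j z u v := by
    rw [sum_Nb z u (fun t => t) rfl, ← Finset.sum_filter_add_sum_filter_not (Nb G u) (fun v => v ∈ R),
      add_comm]
    congr 1
    rw [Finset.mul_sum]
    have hEf : E.filter (fun v => v ∉ R) = ((Nb G u).filter (fun v => ¬ v ∈ R)).filter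
        (fun v => bo x i j u v) := by
      ext v
      simp only [hE, mem_filter]
      constructor
      · rintro ⟨⟨h1, h2⟩, h3⟩
        exact ⟨⟨h1, h3⟩, (bo_iff hag hu h3).2 h2⟩
      · rintro ⟨⟨h1, h3⟩, h2⟩
        exact ⟨⟨h1, (bo_iff hag hu h3).1 h2⟩, h3⟩
    rw [hEf, Finset.sum_filter (p := fun v => bo x i j u v)]
    refine Finset.sum_congr rfl (fun v hv => ?_)
    simp only [mem_filter] at hv
    have hadj := mem_Nb.1 hv.1
    unfold be
    by_cases hb : bo x i j u v
    · rw [if_pos ⟨hadj, hb⟩, if_neg hu, if_neg hv.2, if_pos hb]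
    · rw [if_neg (by tauto), if_neg hb]
  have hcardR : (((Nb G u).filter (fun v => v ∈ R)).card : ℝ) ≤ 20 * Real.sqrt (m * D) := (hR u).2
  have hE2 : |∑ v ∈ (Nb G u).filter (fun v => v ∈ R), be G R x i j z u v| ≤ 4000 * m := by
    refine (Finset.abs_sum_le_sum_abs _ _).trans ?_
    have h1 : ∑ v ∈ (Nb G u).filter (fun v => v ∈ R), |be G R x i j z u v| ≤
        ∑ v ∈ (Nb G u).filter (fun v => v ∈ R), 200 * Real.sqrt (m * D) / D := by
      refine Finset.sum_le_sum (fun v hv => ?_)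
      have h2 := be_le hm hD hR hag hg z hz hzb hth u v
      rw [if_pos (Or.inr (mem_filter.1 hv).2)] at h2
      exact h2
    rw [Finset.sum_const, nsmul_eq_mul] at h1
    refine h1.trans ?_
    have hq : (0:ℝ) ≤ 200 * Real.sqrt (m * D) / D := by positivity
    refine (mul_le_mul_of_nonneg_right hcardR hq).trans ?_
    have h3 : Real.sqrt (m * D) * Real.sqrt (m * D) = m * D := Real.mul_self_sqrt (by positivity)
    have h4 : 20 * Real.sqrt (m * D) * (200 * Real.sqrt (m * D) / D) =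
        4000 * (Real.sqrt (m * D) * Real.sqrt (m * D)) / D := by ring
    rw [h4, h3]
    apply le_of_eq
    field_simp
  have hE1 : |∑ v ∈ E.filter (fun v => ¬ v ∉ R), (z s u - z s v)| ≤ 4 * 10 ^ 5 * m ^ 2 := by
    refine (Finset.abs_sum_le_sum_abs _ _).trans ?_
    have h1 : ∑ v ∈ E.filter (fun v => ¬ v ∉ R), |z s u - z s v| ≤
        ∑ v ∈ E.filter (fun v => ¬ v ∉ R), 2 * BZ D m := by
      refine Finset.sum_le_sum (fun v _ => ?_)
      have h1 := z_le z hz hzb s u
      have h2 := z_le z hz hzb s v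
      calc |z s u - z s v| ≤ |z s u| + |z s v| := abs_sub _ _
        _ ≤ 2 * BZ D m := by linarith
    rw [Finset.sum_const, nsmul_eq_mul] at h1
    refine h1.trans ?_
    have h2 : ((E.filter (fun v => ¬ v ∉ R)).card : ℝ) ≤ 20 * Real.sqrt (m * D) := by
      refine le_trans ?_ hcardR
      have : (E.filter (fun v => ¬ v ∉ R)).card ≤ ((Nb G u).filter (fun v => v ∈ R)).card := by
        apply Finset.card_le_card
        intro v hv
        simp only [hE, mem_filter, not_not] at hv ⊢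
        exact ⟨hv.1.1, hv.2⟩
      exact_mod_cast this
    refine (mul_le_mul_of_nonneg_right h2 (by positivity)).trans ?_
    unfold BZ
    rw [sqrt_mD]
    have h3 : Real.sqrt m * Real.sqrt m = m := Real.mul_self_sqrt (by positivity)
    have h4 : 20 * (Real.sqrt m * Real.sqrt D) * (2 * (10 ^ 4 * (m * Real.sqrt m) / Real.sqrt D)) =
        4 * 10 ^ 5 * m * (Real.sqrt m * Real.sqrt m) * (Real.sqrt D / Real.sqrt D) := by
      field_simp; ring
    rw [h4, h3, div_self hsD.ne']
    apply le_of_eq; ring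
  have hE0 : |Real.sqrt D * z s u| ≤ 10 ^ 4 * m ^ 2 := by
    rw [abs_mul, abs_of_pos hsD]
    have h1 := z_le z hz hzb s u
    have h2 : Real.sqrt D * |z s u| ≤ Real.sqrt D * BZ D m := mul_le_mul_of_nonneg_left h1 hsD.le
    refine h2.trans ?_
    unfold BZ
    have h3 : Real.sqrt D * (10 ^ 4 * (m * Real.sqrt m) / Real.sqrt D) = 10 ^ 4 * (m * Real.sqrt m) := by
      field_simp
    rw [h3]
    have h4 : Real.sqrt m ≤ m := by
      rw [Real.sqrt_le_left (by positivity)]
      nlinarith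
    have h5 : (m : ℝ) * Real.sqrt m ≤ m * m := mul_le_mul_of_nonneg_left h4 (by positivity)
    nlinarith
  rw [hsum]
  have hkey : ∑ v ∈ E.filter (fun v => v ∉ R), (z s u - z s v) =
      sgn (tr x u j) * th G x i j u - Real.sqrt D * z s u -
        ∑ v ∈ E.filter (fun v => ¬ v ∉ R), (z s u - z s v) := by
    rw [← hTh, ← hpot, hLap]; ring
  rw [hkey]
  set A1 := ∑ v ∈ E.filter (fun v => ¬ v ∉ R), (z s u - z s v) with hA1
  set A2 := ∑ v ∈ (Nb G u).filter (fun v => v ∈ R), be G R x i j z u v with hA2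
  have h5 : sgn (tr x u j) * (sgn (tr x u j) * th G x i j u - Real.sqrt D * z s u - A1) + A2 -
      th G x i j u = -(sgn (tr x u j) * (Real.sqrt D * z s u)) - sgn (tr x u j) * A1 + A2 := by
    have := sgn_sq (tr x u j)
    linear_combination (th G x i j u) * this
  rw [h5]
  have h6 : |-(sgn (tr x u j) * (Real.sqrt D * z s u)) - sgn (tr x u j) * A1 + A2| ≤
      |Real.sqrt D * z s u| + |A1| + |A2| := by
    have e1 : |sgn (tr x u j) * (Real.sqrt D * z s u)| = |Real.sqrt D * z s u| := by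
      rw [abs_mul, abs_sg, one_mul]
    have e2 : |sgn (tr x u j) * A1| = |A1| := by rw [abs_mul, abs_sg, one_mul]
    calc |-(sgn (tr x u j) * (Real.sqrt D * z s u)) - sgn (tr x u j) * A1 + A2|
        ≤ |-(sgn (tr x u j) * (Real.sqrt D * z s u)) - sgn (tr x u j) * A1| + |A2| := abs_add_le _ _
      _ ≤ |-(sgn (tr x u j) * (Real.sqrt D * z s u))| + |sgn (tr x u j) * A1| + |A2| := by
          gcongr; exact abs_sub _ _
      _ = _ := by rw [abs_neg, e1, e2]
  refine h6.trans ?_
  nlinarith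

lemma div_le (hm : 60 ≤ m) (hD : 10 ^ 4 * m ^ 3 ≤ D) (hR : GoodR G D m R) (hij : i ≠ j)
    (hag : ∀ k v, v ∉ R → (x k).2 v = (x k).1 v) (hg : GoodPair G D m (x i).1 (x j).1)
    (z : Bool → V → ℝ)
    (hz : ∀ s, IsPot G (x i).1 (x j).1 s (Real.sqrt D) (Th G i j s x) (z s))
    (hzb : ∀ s u, Ve (x i).1 (x j).1 s u → |z s u| ≤ BZ D m)
    (hth : ∀ u, |th G x i j u| ≤ 25 * Real.sqrt (m * D)) (u : V) :
    |∑ v, be G R x i j z u v - th G x i j u| ≤ 10 ^ 6 * m ^ 2 := by
  by_cases hu : u ∈ R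
  · rw [div_mem hm hD hR hag hg z u hu, sub_self, abs_zero]; positivity
  · exact div_notMem hm hD hR hij hag hg z hz hzb hth u hu

lemma th_swap (u : V) : th G x j i u = - th G x i j u := by
  unfold th
  rw [← Finset.sum_neg_distrib]
  refine Finset.sum_congr rfl (fun v _ => ?_)
  ring

/-- the deterministic part of EXCH -/
theorem det (hReg : Reg G D) (hm : 60 ≤ m) (hD : 10 ^ 4 * m ^ 3 ≤ D) (hR : GoodR G D m R)
    (hag : ∀ k v, v ∉ R → (x k).2 v = (x k).1 v)
    (hg : ∀ i j, i ≠ j → GoodPair G D m (x i).1 (x j).1)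
    (hzz : ∀ i j : Fin m, i ≠ j → ∃ z : Bool → V → ℝ,
      (∀ s, IsPot G (x i).1 (x j).1 s (Real.sqrt D) (Th G i j s x) (z s)) ∧
      (∀ s u, Ve (x i).1 (x j).1 s u → |z s u| ≤ BZ D m))
    (hth : ∀ i j u, |th G x i j u| ≤ 25 * Real.sqrt (m * D)) :
    ∃ β : Fin m → Fin m → V → V → ℝ,
      (∀ i j u v, β i j u v = β i j v u) ∧ (∀ i j u v, β j i u v = -β i j u v) ∧
      (∀ i j u v, β i j u v ≠ 0 → G.Adj u v ∧ i ∈ pat (tr x) u v ∧ j ∈ pat (tr x) u v) ∧
      (∀ i j u v, |β i j u v| ≤ 10 ^ 5 * (m * Real.sqrt m) / Real.sqrt D) ∧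
      (∀ i j u, ∑ v, |β i j u v| ≤ 10 ^ 5 * (m * Real.sqrt m) * Real.sqrt D) ∧
      (∀ i j u, |∑ v, β i j u v - th G x i j u| ≤ 10 ^ 6 * m ^ 2) := by
  have hD0 := D_pos hm hD
  have hsD : 0 < Real.sqrt D := Real.sqrt_pos.2 hD0
  choose! z hz hzb using hzz
  refine ⟨fun i j u v => if i < j then be G R x i j (z i j) u v else
    if j < i then -be G R x j i (z j i) u v else 0, ?_, ?_, ?_, ?_, ?_, ?_⟩
  · intro i j u v
    simp only [be_comm _ hag u v]
  · intro i j u v
    rcases lt_trichotomy i j with h | h | h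
    · simp [h, h.le, not_lt.2 h.le]
    · subst h; simp
    · simp [h, not_lt.2 h.le]
  · intro i j u v h
    rcases lt_trichotomy i j with h1 | h1 | h1
    · simp only [h1, if_true] at h
      exact be_supp _ u v h
    · subst h1; simp at h
    · simp only [h1, not_lt.2 h1.le, if_false, if_true, ne_eq, neg_eq_zero] at h
      have := be_supp _ u v h
      exact ⟨this.1, this.2.2, this.2.1⟩
  · intro i j u v
    have hb : 2 * BZ D m ≤ 10 ^ 5 * (m * Real.sqrt m) / Real.sqrt D := by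
      unfold BZ
      rw [← mul_div_assoc]
      apply div_le_div_of_nonneg_right _ hsD.le
      have : 0 ≤ (m : ℝ) * Real.sqrt m := by positivity
      nlinarith
    rcases lt_trichotomy i j with h1 | h1 | h1
    · simp only [h1, if_true]
      exact (be_le2 hm hD hR hag (hg i j h1.ne) _ (hz i j h1.ne) (hzb i j h1.ne)
        (fun u => hth i j u) u v).trans hb
    · subst h1; simp; positivity
    · simp only [h1, not_lt.2 h1.le, if_false, if_true, abs_neg]
      exact (be_le2 hm hD hR hag (hg j i h1.ne) _ (hz j i h1.ne) (hzb j i h1.ne)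
        (fun u => hth j i u) u v).trans hb
  · intro i j u
    rcases lt_trichotomy i j with h1 | h1 | h1
    · simp only [h1, if_true]
      exact sum_abs hReg hm hD hR hag (hg i j h1.ne) _ (hz i j h1.ne) (hzb i j h1.ne)
        (fun u => hth i j u) u
    · subst h1; simp; positivity
    · simp only [h1, not_lt.2 h1.le, if_false, if_true, abs_neg]
      exact sum_abs hReg hm hD hR hag (hg j i h1.ne) _ (hz j i h1.ne) (hzb j i h1.ne)
        (fun u => hth j i u) u
  · intro i j u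
    rcases lt_trichotomy i j with h1 | h1 | h1
    · simp only [h1, if_true]
      exact div_le hm hD hR h1.ne hag (hg i j h1.ne) _ (hz i j h1.ne) (hzb i j h1.ne)
        (fun u => hth i j u) u
    · subst h1
      have : th G x i i u = 0 := by unfold th; simp
      simp [this]
    · simp only [h1, not_lt.2 h1.le, if_false, if_true]
      rw [Finset.sum_neg_distrib]
      have h2 := div_le hm hD hR h1.ne hag (hg j i h1.ne) _ (hz j i h1.ne) (hzb j i h1.ne)
        (fun u => hth j i u) u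
      rw [th_swap (i := j) (j := i)]
      rw [show -∑ v, be G R x j i (z j i) u v - -th G x j i u =
        -(∑ v, be G R x j i (z j i) u v - th G x j i u) by ring, abs_neg]
      exact h2

end EXCHa

end

end Pool.Agent.Helper15.LP
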