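import Pool.Agent.Helper15.LP.Defs
import Pool.Agent.Helper15.LP.EXCH
import Pool.Agent.Helper7.LP.SPLIT
import Pool.Agent.Helper17.LP.RSET
import Pool.Agent.Helper21.LP.PPT
import Pool.Agent.Helper21.LP.RADE
import Pool.Agent.Helper21.LP.TGM
import Pool.Agent.Helper22.LP.FOUR
import Pool.Agent.Helper22.LP.KHIN
import Pool.Agent.Helper22.LP.LAP
import Pool.Agent.Helper25.LP.PARTZ
import Pool.Agent.Helper26.LP.PARTM
import Pool.Agent.Helper28.LP.BAL
import Pool.Agent.Helper32.LP.VBN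
import Pool.Agent.Helper35.LP.MGEN
import Pool.Agent.Helper38.LP.WEIGHTS
import Pool.Agent.Helper39.LP.GREEN
import Pool.Agent.Helper41.LP.PARTS
import Pool.Agent.Helper57.LP.GP
import Pool.Agent.Helper59.LP.OPN
import Pool.Agent.Helper68.LP.ROWS
import Pool.Agent.Helper70.LP.LEVEL
import Pool.Agent.Helper70.LP.ROUNDQ
import Pool.Agent.Helper74.LP.MREG
import Pool.Agent.Helper74.LP.NONE
import Pool.Agent.Helper76.LP.FRAC
import Pool.Agent.Helper78.LP.FINB
import Pool.Agent.Helper78.LP.FING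
import Pool.Agent.Helper85.LP.CHAOS
import Pool.Agent.Helper15.LR.A1
import Pool.Agent.Helper15.LR.A2
import Pool.Agent.Helper33.LR.A3
import Pool.Agent.Helper15.LR.B1a
import Pool.Agent.Helper15.LR.B1b
import Pool.Agent.Helper36.LR.R2

set_option autoImplicit false

/-! Assembly: `ch' ≤ Δ + C (log n)^5` for all graphs. -/

namespace Pool.Agent.Helper15.LP

theorem lp_OpNorm : OpNorm_stmt := lp_OPN (lp_KHIN lp_TGM) lp_PPCount

theorem lp_GoodPair : GoodPair_stmt := lp_GP lp_OpNorm lp_RADE lp_PPCount lp_PPUnion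

theorem lp_Green : Green_stmt := lp_GREEN lp_LAP

theorem lp_RSet : RSet_stmt :=
  lp_RSET lp_Green lp_VBN lp_LAP lp_PPUnion Pool.Agent.Helper15.LR.B1b_Hoeffding

theorem lp_Level : Level_stmt := lp_LEVEL lp_BAL

theorem lp_PartS : PartS_stmt := lp_PARTS lp_CHAOS lp_RADE

theorem lp_PartM : PartM_stmt := lp_PARTM lp_GoodPair lp_Green lp_LAP lp_RADE lp_PPCount

theorem lp_PartZ : PartZ_stmt :=
  lp_PARTZ lp_PartS lp_PartM lp_GoodPair lp_Green lp_FOUR lp_LAP lp_PPCond1 lp_PPCond2 lp_PPUnion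

theorem lp_Rows : Rows_stmt := lp_ROWS Pool.Agent.Helper15.LR.B1b_Hoeffding

theorem lp_Signs : Signs_stmt :=
  lp_EXCH Pool.Agent.Helper15.LR.B1a_Avoid lp_PPCond2 lp_LAP lp_RSet lp_Level lp_PartZ lp_Rows
    (lp_NONE lp_PPUnion) lp_GoodPair

theorem lp_Weights : Weights_stmt := lp_WEIGHTS lp_Signs

theorem lp_FracF : Frac_stmt :=
  lp_Frac lp_ROUNDQ (Pool.Agent.Helper36.LR.R2 Pool.Agent.Helper15.LR.A1)

theorem lp_MainReg : MainReg_stmt :=
  lp_MREG lp_Weights lp_FracF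
    (lp_SPLIT Pool.Agent.Helper15.LR.B1a_Avoid Pool.Agent.Helper15.LR.B1b_Hoeffding)

theorem lp_MainGenF : MainGen_stmt := lp_MainGen lp_MainReg

theorem lp_BoundP : BoundP_stmt := lp_FINB lp_MainGenF

theorem lp_GapP : GapP_stmt :=
  lp_FING lp_MainGenF
    (Pool.Agent.Helper33.LR.blockGalvin Pool.Agent.Helper15.LR.A1 Pool.Agent.Helper15.LR.A2)

end Pool.Agent.Helper15.LP
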